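import Mathlib

/-!
Points on the Weierstrass curve `y² = x³ + (e/(2b²))²` from solutions of
`-p q (p+q) = b e z³`.
-/

namespace Pool.Agent.N420.KS

open WeierstrassCurve.Affine

variable {K : Type*} [Field K]

/-- `y² = x³ + (e/(2b²))²` -/
def wei (b e : K) : WeierstrassCurve.Affine K :=
  { a₁ := 0, a₂ := 0, a₃ := 0, a₄ := 0, a₆ := (e / (2 * b ^ 2)) ^ 2 }

/-- x-coordinate -/
def wx (b e p z : K) : K := -(e * z / (b * p))

/-- y-coordinate -/
def wy (b e p q : K) : K := e * (2 * q + p) / (2 * b ^ 2 * p)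

lemma wei_eq (h2 : (2 : K) ≠ 0) {b e p q z : K} (hb : b ≠ 0) (hp : p ≠ 0)
    (h : -(p * q * (p + q)) = b * e * z ^ 3) :
    wy b e p q ^ 2 = wx b e p z ^ 3 + (e / (2 * b ^ 2)) ^ 2 := by
  rw [wy, wx]
  field_simp
  linear_combination (-4 * e ^ 2) * h

lemma wei_nonsing (h2 : (2 : K) ≠ 0) (h3 : (3 : K) ≠ 0) {b e p q z : K} (hb : b ≠ 0)
    (he : e ≠ 0) (hp : p ≠ 0) (hz : z ≠ 0)
    (h : -(p * q * (p + q)) = b * e * z ^ 3) :
    (wei b e).Nonsingular (wx b e p z) (wy b e p q) := by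
  rw [nonsingular_iff']
  constructor
  · rw [equation_iff]
    simp only [wei]
    have := wei_eq h2 hb hp h
    linear_combination this
  · left
    simp only [wei]
    have hx : wx b e p z ≠ 0 := by
      rw [wx]
      exact neg_ne_zero.2 (div_ne_zero (mul_ne_zero he hz) (mul_ne_zero hb hp))
    have : 0 * wy b e p q - (3 * wx b e p z ^ 2 + 2 * 0 * wx b e p z + 0)
        = -(3 * wx b e p z ^ 2) := by ring
    rw [this]
    exact neg_ne_zero.2 (mul_ne_zero h3 (pow_ne_zero 2 hx))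

lemma wei_dbl [DecidableEq K] (h2 : (2 : K) ≠ 0) {b e p q z : K} (hb : b ≠ 0)
    (he : e ≠ 0) (hp : p ≠ 0) (hA : p + 2 * q ≠ 0)
    (h : -(p * q * (p + q)) = b * e * z ^ 3)
    (h1 : (wei b e).Nonsingular (wx b e p z) (wy b e p q))
    (h1' : (wei b e).Nonsingular
      (wx b e (p * (p + 2 * q) ^ 3) (-(z * ((p + 2 * q) * (2 * p + q) * (p - q)))))
      (wy b e (p * (p + 2 * q) ^ 3) (-(q * (2 * p + q) ^ 3)))) :
    Point.some _ _ h1 + Point.some _ _ h1 = -Point.some _ _ h1' := by
  have hy0 : wy b e p q ≠ 0 := by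
    rw [wy]
    refine div_ne_zero (mul_ne_zero he ?_) (mul_ne_zero (mul_ne_zero h2 (pow_ne_zero 2 hb)) hp)
    intro h0
    apply hA
    linear_combination h0
  have hneg : (wei b e).negY (wx b e p z) (wy b e p q) = -wy b e p q := by
    simp only [negY, wei]
    ring
  have hy : wy b e p q ≠ (wei b e).negY (wx b e p z) (wy b e p q) := by
    rw [hneg]
    intro h0
    have : 2 * wy b e p q = 0 := by linear_combination h0
    exact (mul_ne_zero h2 hy0) this
  rw [Point.add_self_of_Y_ne' hy]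
  congr 1
  have hsl : (wei b e).slope (wx b e p z) (wx b e p z) (wy b e p q) (wy b e p q)
      = 3 * e * z ^ 2 / (p * (p + 2 * q)) := by
    rw [slope_of_Y_ne rfl hy, hneg]
    simp only [wei]
    have hne : wy b e p q - -wy b e p q ≠ 0 := by
      have : wy b e p q - -wy b e p q = 2 * wy b e p q := by ring
      rw [this]
      exact mul_ne_zero h2 hy0
    rw [div_eq_div_iff hne (mul_ne_zero hp hA)]
    rw [wx, wy]
    field_simp
    ring
  have hX : (wei b e).addX (wx b e p z) (wx b e p z)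
      ((wei b e).slope (wx b e p z) (wx b e p z) (wy b e p q) (wy b e p q))
      = wx b e (p * (p + 2 * q) ^ 3) (-(z * ((p + 2 * q) * (2 * p + q) * (p - q)))) := by
    rw [hsl]
    simp only [addX, wei]
    rw [wx, wx]
    field_simp
    linear_combination (-9 * e * z) * h
  have hY : (wei b e).negAddY (wx b e p z) (wx b e p z) (wy b e p q)
      ((wei b e).slope (wx b e p z) (wx b e p z) (wy b e p q) (wy b e p q))
      = wy b e (p * (p + 2 * q) ^ 3) (-(q * (2 * p + q) ^ 3)) := by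
    rw [negAddY, hX, hsl]
    rw [wx, wx, wy, wy]
    field_simp
    linear_combination (-18 * (p ^ 2 + p * q + q ^ 2)) * h
  exact Point.some.injEq .. |>.mpr ⟨hX, hY⟩

end Pool.Agent.N420.KS
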