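import Mathlib

/-!
Definitions for `MP_3da457_ag`.
-/

namespace Pool.Agent.N420.KS

/-- The admissible triples `(q, b, c)`, `q` the order of the finite field `F`. -/
structure Admissible (F : Type) [Field F] (b c : F) : Prop where
  /-- the characteristic is larger than three -/
  char_gt : 3 < ringChar F
  /-- `b` is nonzero -/
  b_ne : b ≠ 0
  /-- `c` is nonzero -/
  c_ne : c ≠ 0
  /-- the curve `y² = x³ - b` is ordinary: its trace, the order of `F` minus the number of its affine
  points, is not divisible by the characteristic -/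
  ordinary : ¬ ((ringChar F : ℤ) ∣
    (Nat.card F : ℤ) - (Nat.card {P : F × F // P.2 ^ 2 = P.1 ^ 3 - b} : ℤ))
  /-- `b` has no cube root -/
  b_noncube : ¬ ∃ x : F, x ^ 3 = b
  /-- `c` has a cube root -/
  c_cube : ∃ x : F, x ^ 3 = c
  /-- `c` is not a square -/
  c_nonsq : ¬ IsSquare c

/-- The Weierstrass form `y² = x³ + ((t ^ (6 n) - c) / (2 b²))²` over `F(t)` of the generic fibre of
the surface `K_{6n}`. -/
noncomputable def weierstrass (F : Type) [Field F] (b c : F) (n : ℕ) :
    WeierstrassCurve.Affine (RatFunc F) :=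
  { a₁ := 0, a₂ := 0, a₃ := 0, a₄ := 0,
    a₆ := ((RatFunc.X ^ (6 * n) - RatFunc.C c) / (2 * RatFunc.C b ^ 2)) ^ 2 }

/-- The pairs `(x₀, x₁)` of rational functions with
`(x₁³ - b) t ^ (6 n) = c (x₀³ - b)`: the affine `F(t)`-points of the generic fibre of `K_{6n}`. -/
def affinePoints (F : Type) [Field F] (b c : F) (n : ℕ) : Set (RatFunc F × RatFunc F) :=
  {P | (P.2 ^ 3 - RatFunc.C b) * RatFunc.X ^ (6 * n) = RatFunc.C c * (P.1 ^ 3 - RatFunc.C b)}

end Pool.Agent.N420.KS
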