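import Pool.Agent.N420.KS.Field

/-!
Field facts when `q = 2` or `3` modulo `5`.
-/

namespace Pool.Agent.N420.KS

variable {F : Type*} [Field F] [Finite F]

lemma not_isSquare_five (hchar : 3 < ringChar F) (hq : Nat.card F % 5 = 2 ∨ Nat.card F % 5 = 3) :
    ¬ IsSquare (5 : F) := by
  classical
  haveI := Fintype.ofFinite F
  intro hsq
  have hsq' : IsSquare ((5 : ℕ) : F) := by exact_mod_cast hsq
  have h := (FiniteField.isSquare_odd_prime_iff (F := F) (by omega) (p := 5) (by norm_num)).1 hsq'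
  apply h
  rw [Nat.card_eq_fintype_card] at hq
  have hodd : Fintype.card F % 2 = 1 := by
    have := FiniteField.odd_card_of_char_ne_two (F := F) (by omega)
    omega
  have h4 : (∀ x : ZMod 4, x = 1 ∨ x = 3 → (ZMod.χ₄ x = 1 ∨ ZMod.χ₄ x = -1)) := by decide
  have h4' : (Fintype.card F : ZMod 4) = 1 ∨ (Fintype.card F : ZMod 4) = 3 := by
    have h5 : Fintype.card F % 4 = 1 ∨ Fintype.card F % 4 = 3 := by omega
    have : ((Fintype.card F % 4 : ℕ) : ZMod 4) = Fintype.card F := ZMod.natCast_mod _ _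
    rcases h5 with h5 | h5
    · left
      rw [← this, h5]
      rfl
    · right
      rw [← this, h5]
      rfl
  have h5 : ((Fintype.card F : ℕ) : ZMod 5) = 2 ∨ ((Fintype.card F : ℕ) : ZMod 5) = 3 := by
    have : ((Fintype.card F % 5 : ℕ) : ZMod 5) = Fintype.card F := ZMod.natCast_mod _ _
    rcases hq with hq | hq
    · left
      rw [← this, hq]
      rfl
    · right
      rw [← this, hq]
      rfl
  rcases h4 _ h4' with h | h <;> rcases h5 with h' | h' <;> rw [h, h'] <;> decide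

lemma card_units_coprime_five' (hq : Nat.card F % 5 = 2 ∨ Nat.card F % 5 = 3) :
    (Nat.card Fˣ).Coprime 5 := by
  have h1 : Nat.card Fˣ = Nat.card F - 1 := by
    rw [Nat.card_units]
  have h5 : ¬ 5 ∣ Nat.card Fˣ := by
    rw [h1]
    omega
  exact ((Nat.Prime.coprime_iff_not_dvd (by norm_num : Nat.Prime 5)).2 h5).symm

/-- The parameters of the section when `q = 2` or `3` modulo `5`. -/
theorem exists_params2 (hchar : 3 < ringChar F)
    (hq : Nat.card F % 5 = 2 ∨ Nat.card F % 5 = 3) {b c β γ : F}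
    (hb : b = 10 * β ^ 3) (hb0 : b ≠ 0) (hc0 : c ≠ 0) (hγ : γ ^ 3 = c) (hcns : ¬ IsSquare c) :
    ∃ k m : F, k ≠ 0 ∧ 3125 * k ^ 10 = c ∧ b * m ^ 3 * k ^ 11 = 250 := by
  have h10 : (10 : F) ≠ 0 := by
    intro h
    apply hb0
    rw [hb, h, zero_mul]
  have h5 : (5 : F) ≠ 0 := by
    intro h
    apply h10
    linear_combination 2 * h
  have hβ : β ≠ 0 := by
    rintro rfl
    apply hb0
    rw [hb]
    ring
  obtain ⟨r0, hr0⟩ := isSquare_mul_of_not hcns (not_isSquare_five hchar hq)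
  have hr00 : r0 ≠ 0 := by
    rintro rfl
    have : c * 5 = 0 := by rw [hr0]; ring
    exact (mul_ne_zero hc0 h5) this
  have h125 : (125 : F) ≠ 0 := by
    have : (125 : F) = 5 ^ 3 := by norm_num
    rw [this]
    exact pow_ne_zero 3 h5
  obtain ⟨k, hk0, hk⟩ := exists_root_of_coprime (card_units_coprime_five' hq) (r0 / 125)
    (div_ne_zero hr00 h125)
  have hk10 : 3125 * k ^ 10 = c := by
    have e1 : k ^ 10 = (r0 / 125) ^ 2 := by rw [← hk]; ring
    rw [e1, div_pow, sq, ← hr0]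
    field_simp
    norm_num
  refine ⟨k, γ / (5 * β * k ^ 7), hk0, hk10, ?_⟩
  rw [div_pow, hγ, ← hk10, hb]
  field_simp
  norm_num

end Pool.Agent.N420.KS
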