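import Mathlib

/-!
Doubling of polynomial solutions of `-P Q (P+Q) = D Z^3`.
-/

open Polynomial

namespace Pool.Agent.N420.KS

variable {F : Type*} [Field F]

/-- polynomial solution data -/
structure Inv (D : F[X]) (N : ℕ) (T : F[X] × F[X] × F[X]) : Prop where
  eqn : -(T.1 * T.2.1 * (T.1 + T.2.1)) = D * T.2.2 ^ 3
  cop : IsCoprime T.1 T.2.1
  z_ne : T.2.2 ≠ 0
  degP : T.1.natDegree ≤ N
  degQ : T.2.1.natDegree ≤ N
  top : T.1.coeff N ≠ 0 ∨ T.2.1.coeff N ≠ 0

/-- minus the double -/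
noncomputable def dbl (T : F[X] × F[X] × F[X]) : F[X] × F[X] × F[X] :=
  (T.1 * (T.1 + 2 * T.2.1) ^ 3, -(T.2.1 * (2 * T.1 + T.2.1) ^ 3),
    -(T.2.2 * ((T.1 + 2 * T.2.1) * (2 * T.1 + T.2.1) * (T.1 - T.2.1))))

lemma C2 : (C (2 : F) : F[X]) = 2 := map_ofNat C 2

lemma unit_of_dvd_both {D : F[X]} {N : ℕ} {T : F[X] × F[X] × F[X]} (h : Inv D N T) (hN : 0 < N)
    {R : F[X]} (h1 : R ∣ T.1) (h2 : R ∣ T.2.1) : IsUnit R :=
  h.cop.isUnit_of_dvd' h1 h2

lemma not_both_const {D : F[X]} {N : ℕ} {T : F[X] × F[X] × F[X]} (h : Inv D N T) (hN : 0 < N)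
    (h1 : T.1.natDegree = 0) (h2 : T.2.1.natDegree = 0) : False := by
  rcases h.top with h' | h'
  · exact h' (coeff_eq_zero_of_natDegree_lt (by omega))
  · exact h' (coeff_eq_zero_of_natDegree_lt (by omega))

lemma two_ne' (h2 : (2 : F) ≠ 0) : (2 : F[X]) ≠ 0 := by
  intro h
  apply h2
  have := congrArg (fun p => p.coeff 0) h
  simpa using this

lemma factors_ne {D : F[X]} {N : ℕ} {T : F[X] × F[X] × F[X]} (h : Inv D N T) (hN : 0 < N) :
    T.1 + 2 * T.2.1 ≠ 0 ∧ 2 * T.1 + T.2.1 ≠ 0 ∧ T.1 - T.2.1 ≠ 0 := by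
  refine ⟨?_, ?_, ?_⟩
  · intro h0
    have hu : IsUnit T.2.1 := by
      refine h.cop.isUnit_of_dvd' ⟨-2, ?_⟩ dvd_rfl
      linear_combination h0
    have d2 := natDegree_eq_zero_of_isUnit hu
    have hP : T.1 = -2 * T.2.1 := by linear_combination h0
    refine not_both_const h hN ?_ d2
    rw [hP]
    have : ((-2 : F[X]) * T.2.1).natDegree ≤ 0 := by
      have hc : (-2 : F[X]) = C (-2 : F) := by rw [C_neg, C2]
      rw [hc]
      exact (natDegree_C_mul_le _ _).trans d2.le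
    omega
  · intro h0
    have hu : IsUnit T.1 := by
      refine h.cop.isUnit_of_dvd' dvd_rfl ⟨-2, ?_⟩
      linear_combination h0
    have d1 := natDegree_eq_zero_of_isUnit hu
    have hQ : T.2.1 = -2 * T.1 := by linear_combination h0
    refine not_both_const h hN d1 ?_
    rw [hQ]
    have : ((-2 : F[X]) * T.1).natDegree ≤ 0 := by
      have hc : (-2 : F[X]) = C (-2 : F) := by rw [C_neg, C2]
      rw [hc]
      exact (natDegree_C_mul_le _ _).trans d1.le
    omega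
  · intro h0
    have hu : IsUnit T.1 := by
      refine h.cop.isUnit_of_dvd' dvd_rfl ⟨1, ?_⟩
      linear_combination -h0
    have d1 := natDegree_eq_zero_of_isUnit hu
    have hQ : T.2.1 = T.1 := by linear_combination -h0
    refine not_both_const h hN d1 ?_
    rw [hQ]
    exact d1

lemma cop_dbl (h3 : (3 : F) ≠ 0) {P Q : F[X]} (h : IsCoprime P Q) :
    IsCoprime (P * (P + 2 * Q) ^ 3) (-(Q * (2 * P + Q) ^ 3)) := by
  have hPQ := h
  have hPB : IsCoprime P (2 * P + Q) := by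
    obtain ⟨u, v, huv⟩ := h
    exact ⟨u - 2 * v, v, by linear_combination huv⟩
  have hAQ : IsCoprime (P + 2 * Q) Q := by
    obtain ⟨u, v, huv⟩ := h
    exact ⟨u, v - 2 * u, by linear_combination huv⟩
  have hAB : IsCoprime (P + 2 * Q) (2 * P + Q) := by
    obtain ⟨u, v, huv⟩ := h
    have hc : (C (3⁻¹ : F) : F[X]) * 3 = 1 := by
      have : (3 : F[X]) = C 3 := (map_ofNat C 3).symm
      rw [this, ← C_mul, inv_mul_cancel₀ h3, C_1]
    exact ⟨C 3⁻¹ * (2 * v - u), C 3⁻¹ * (2 * u - v), by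
      linear_combination huv + (u * P + v * Q) * hc⟩
  refine IsCoprime.neg_right ?_
  exact IsCoprime.mul_left (IsCoprime.mul_right hPQ hPB.pow_right)
    (IsCoprime.pow_left (IsCoprime.mul_right hAQ hAB.pow_right))

lemma Inv.dbl {D : F[X]} {N : ℕ} {T : F[X] × F[X] × F[X]} (h2 : (2 : F) ≠ 0) (h3 : (3 : F) ≠ 0)
    (h : Inv D N T) (hN : 0 < N) : Inv D (4 * N) (dbl T) := by
  obtain ⟨P, Q, Z⟩ := T
  obtain ⟨e, c, z, dP, dQ, t⟩ := h
  have hf := factors_ne (T := (P, Q, Z)) ⟨e, c, z, dP, dQ, t⟩ hN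
  simp only at e c z dP dQ t hf
  have hA : (P + 2 * Q).natDegree ≤ N := by
    refine (natDegree_add_le _ _).trans (max_le dP ?_)
    have hc : (2 : F[X]) = C (2 : F) := C2.symm
    rw [hc]
    exact (natDegree_C_mul_le _ _).trans dQ
  have hB : (2 * P + Q).natDegree ≤ N := by
    refine (natDegree_add_le _ _).trans (max_le ?_ dQ)
    have hc : (2 : F[X]) = C (2 : F) := C2.symm
    rw [hc]
    exact (natDegree_C_mul_le _ _).trans dP
  have hA3 : ((P + 2 * Q) ^ 3).natDegree ≤ 3 * N :=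
    natDegree_pow_le.trans (Nat.mul_le_mul_left 3 hA)
  have hB3 : ((2 * P + Q) ^ 3).natDegree ≤ 3 * N :=
    natDegree_pow_le.trans (Nat.mul_le_mul_left 3 hB)
  have cA : (P + 2 * Q).coeff N = P.coeff N + 2 * Q.coeff N := by
    have hc : (2 : F[X]) = C (2 : F) := C2.symm
    rw [coeff_add, hc, coeff_C_mul]
  have cB : (2 * P + Q).coeff N = 2 * P.coeff N + Q.coeff N := by
    have hc : (2 : F[X]) = C (2 : F) := C2.symm
    rw [coeff_add, hc, coeff_C_mul]
  have h4 : 4 * N = N + 3 * N := by ring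
  have cP' : (P * (P + 2 * Q) ^ 3).coeff (4 * N) = P.coeff N * (P.coeff N + 2 * Q.coeff N) ^ 3 := by
    rw [h4, coeff_mul_add_eq_of_natDegree_le dP hA3, coeff_pow_of_natDegree_le hA, cA]
  have cQ' : (Q * (2 * P + Q) ^ 3).coeff (4 * N) = Q.coeff N * (2 * P.coeff N + Q.coeff N) ^ 3 := by
    rw [h4, coeff_mul_add_eq_of_natDegree_le dQ hB3, coeff_pow_of_natDegree_le hB, cB]
  refine ⟨?_, cop_dbl h3 c, ?_, ?_, ?_, ?_⟩
  · simp only [KS.dbl]
    linear_combination ((P + 2 * Q) * (2 * P + Q) * (P - Q)) ^ 3 * (-1) * e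
  · simp only [KS.dbl]
    exact neg_ne_zero.2 (mul_ne_zero z (mul_ne_zero (mul_ne_zero hf.1 hf.2.1) hf.2.2))
  · simp only [KS.dbl]
    rw [h4]
    exact natDegree_mul_le_of_le dP hA3
  · simp only [KS.dbl, natDegree_neg]
    rw [h4]
    exact natDegree_mul_le_of_le dQ hB3
  · simp only [KS.dbl, coeff_neg]
    rw [cP', cQ']
    by_contra hcon
    push Not at hcon
    obtain ⟨e1, e2⟩ := hcon
    rw [neg_eq_zero] at e2
    rcases mul_eq_zero.1 e1 with h | h
    · rw [h] at e2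
      have hq : Q.coeff N ^ 4 = 0 := by linear_combination e2
      have := (pow_eq_zero_iff (by norm_num)).1 hq
      rcases t with t | t
      · exact t h
      · exact t this
    · have hp : P.coeff N = -2 * Q.coeff N := by
        have := (pow_eq_zero_iff (by norm_num)).1 h
        linear_combination this
      rw [hp] at e2
      have hq : (-3 * Q.coeff N) ^ 3 * Q.coeff N = 0 := by linear_combination e2
      have hq0 : Q.coeff N = 0 := by
        rcases mul_eq_zero.1 hq with h' | h'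
        · have := (pow_eq_zero_iff (by norm_num)).1 h'
          rcases mul_eq_zero.1 this with h'' | h''
          · exact absurd (neg_eq_zero.1 h'') h3
          · exact h''
        · exact h'
      rw [hq0] at hp
      rcases t with t | t
      · exact t (by rw [hp]; ring)
      · exact t hq0

/-- the orbit -/
noncomputable def orb (T : F[X] × F[X] × F[X]) (k : ℕ) : F[X] × F[X] × F[X] :=
  (dbl)^[k] T

lemma orb_succ (T : F[X] × F[X] × F[X]) (k : ℕ) : orb T (k + 1) = dbl (orb T k) := by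
  simp only [orb, Function.iterate_succ', Function.comp]

lemma Inv.orb {D : F[X]} {N : ℕ} {T : F[X] × F[X] × F[X]} (h2 : (2 : F) ≠ 0) (h3 : (3 : F) ≠ 0)
    (h : Inv D N T) (hN : 0 < N) (k : ℕ) : Inv D (4 ^ k * N) (orb T k) := by
  induction k with
  | zero => simpa [KS.orb] using h
  | succ k ih =>
    rw [orb_succ, pow_succ, mul_comm (4 ^ k) 4, mul_assoc]
    exact ih.dbl h2 h3 (by positivity)

lemma pq_ne {D : F[X]} {N : ℕ} {T : F[X] × F[X] × F[X]} (hD : D ≠ 0) (h : Inv D N T) :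
    T.1 ≠ 0 ∧ T.2.1 ≠ 0 ∧ T.1 + T.2.1 ≠ 0 := by
  have h0 : T.1 * T.2.1 * (T.1 + T.2.1) ≠ 0 := by
    intro h0
    have := h.eqn
    rw [h0, neg_zero] at this
    exact (mul_ne_zero hD (pow_ne_zero 3 h.z_ne)) this.symm
  exact ⟨left_ne_zero_of_mul (left_ne_zero_of_mul h0), right_ne_zero_of_mul
    (left_ne_zero_of_mul h0), right_ne_zero_of_mul h0⟩

/-- Solutions with proportional `(P, Q)` have the same height. -/
lemma height_unique {D : F[X]} {N N' : ℕ} {T T' : F[X] × F[X] × F[X]} (hD : D ≠ 0)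
    (h : Inv D N T) (h' : Inv D N' T') (hpr : T.1 * T'.2.1 = T'.1 * T.2.1) : N = N' := by
  obtain ⟨p0, q0, -⟩ := pq_ne hD h
  obtain ⟨p0', q0', -⟩ := pq_ne hD h'
  have d1 : T.1 ∣ T'.1 := by
    have : T.1 ∣ T'.1 * T.2.1 := ⟨T'.2.1, hpr.symm⟩
    exact h.cop.dvd_of_dvd_mul_right this
  have d2 : T'.1 ∣ T.1 := by
    have : T'.1 ∣ T.1 * T'.2.1 := ⟨T.2.1, hpr⟩
    exact h'.cop.dvd_of_dvd_mul_right this
  have d3 : T.2.1 ∣ T'.2.1 := by
    have : T.2.1 ∣ T.1 * T'.2.1 := ⟨T'.1, by rw [hpr, mul_comm]⟩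
    exact h.cop.symm.dvd_of_dvd_mul_left this
  have d4 : T'.2.1 ∣ T.2.1 := by
    have : T'.2.1 ∣ T'.1 * T.2.1 := ⟨T.1, by rw [← hpr, mul_comm]⟩
    exact h'.cop.symm.dvd_of_dvd_mul_left this
  have n1 := natDegree_le_of_dvd d1 p0'
  have n2 := natDegree_le_of_dvd d2 p0
  have n3 := natDegree_le_of_dvd d3 q0'
  have n4 := natDegree_le_of_dvd d4 q0
  have t1 : N ≤ max T.1.natDegree T.2.1.natDegree := by
    rcases h.top with t | t
    · exact le_max_of_le_left (le_natDegree_of_ne_zero t)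
    · exact le_max_of_le_right (le_natDegree_of_ne_zero t)
  have t2 : N' ≤ max T'.1.natDegree T'.2.1.natDegree := by
    rcases h'.top with t | t
    · exact le_max_of_le_left (le_natDegree_of_ne_zero t)
    · exact le_max_of_le_right (le_natDegree_of_ne_zero t)
  have a1 := h.degP
  have a2 := h.degQ
  have a3 := h'.degP
  have a4 := h'.degQ
  omega

end Pool.Agent.N420.KS
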