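import Pool.Agent.N420.KS.Field
import Pool.Agent.N420.KS.Double

/-!
The first solution when `q = 2` or `3` modulo `5`.
-/

open Polynomial

namespace Pool.Agent.N420.KS

variable {F : Type*} [Field F]

/-- quartic factor -/
noncomputable def pA (w : F[X]) : F[X] := w ^ 4 + 5 * w ^ 3 + 15 * w ^ 2 + 25 * w + 25

/-- quartic factor at `-w` -/
noncomputable def pAm (w : F[X]) : F[X] := w ^ 4 - 5 * w ^ 3 + 15 * w ^ 2 - 25 * w + 25

/-- cube factor -/
noncomputable def pz (w : F[X]) : F[X] :=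
  w ^ 12 + 40 * w ^ 11 - 255 * w ^ 10 - 350 * w ^ 9 + 750 * w ^ 8 + 3250 * w ^ 7 - 20000 * w ^ 6
    + 16250 * w ^ 5 + 18750 * w ^ 4 - 43750 * w ^ 3 - 159375 * w ^ 2 + 125000 * w + 15625

/-- cube factor at `-w` -/
noncomputable def pzm (w : F[X]) : F[X] :=
  w ^ 12 - 40 * w ^ 11 - 255 * w ^ 10 + 350 * w ^ 9 + 750 * w ^ 8 - 3250 * w ^ 7 - 20000 * w ^ 6
    - 16250 * w ^ 5 + 18750 * w ^ 4 + 43750 * w ^ 3 - 159375 * w ^ 2 - 125000 * w + 15625

/-- the third cube factor -/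
noncomputable def py (w : F[X]) : F[X] :=
  w ^ 10 + 70 * w ^ 8 + 250 * w ^ 6 + 1250 * w ^ 4 + 8750 * w ^ 2 + 3125

/-- `T₁` -/
noncomputable def pP (w : F[X]) : F[X] := -250 * (w * ((w ^ 2 - 5) ^ 4 * py w ^ 3))

/-- `T₂` -/
noncomputable def pQ (w : F[X]) : F[X] := pA w * pz w ^ 3

lemma sum_eq (w : F[X]) : pP w + pQ w = pAm w * pzm w ^ 3 := by
  simp only [pP, pQ, pA, pAm, pz, pzm, py]
  ring

lemma aur_eq (w : F[X]) : pA w * pAm w * (w ^ 2 - 5) = w ^ 10 - 3125 := by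
  simp only [pA, pAm]
  ring

lemma base_eq (w : F[X]) : -(pP w * pQ w * (pP w + pQ w))
    = 250 * (w * (w ^ 10 - 3125)) * ((w ^ 2 - 5) * py w * pz w * pzm w) ^ 3 := by
  rw [sum_eq, ← aur_eq]
  simp only [pP, pQ]
  ring

lemma cop_of_eq {f g u v : F[X]} {N : F} (hN : N ≠ 0) (h : u * f + v * g = C N) :
    IsCoprime f g := by
  have hn : (C N⁻¹ : F[X]) * C N = 1 := by
    rw [← C_mul, inv_mul_cancel₀ hN, C_1]
  exact ⟨C N⁻¹ * u, C N⁻¹ * v, by linear_combination hn + C N⁻¹ * h⟩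

lemma cop_wA {w : F[X]} (hN : (25 : F) ≠ 0) : IsCoprime (w) (pA w) := by
  refine cop_of_eq (N := 25) hN
    (u := -w ^ 3 - 5 * w ^ 2 - 15 * w - 25)
    (v := 1) ?_
  rw [show (C (25 : F) : F[X]) = 25 from map_ofNat C 25]
  simp only [pA, pz, py]
  ring

lemma cop_wz {w : F[X]} (hN : (15625 : F) ≠ 0) : IsCoprime (w) (pz w) := by
  refine cop_of_eq (N := 15625) hN
    (u := -w ^ 11 - 40 * w ^ 10 + 255 * w ^ 9 + 350 * w ^ 8 - 750 * w ^ 7 - 3250 * w ^ 6
      + 20000 * w ^ 5 - 16250 * w ^ 4 - 18750 * w ^ 3 + 43750 * w ^ 2 + 159375 * w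
      - 125000)
    (v := 1) ?_
  rw [show (C (15625 : F) : F[X]) = 15625 from map_ofNat C 15625]
  simp only [pA, pz, py]
  ring

lemma cop_SA {w : F[X]} (hN : (125 : F) ≠ 0) : IsCoprime (w ^ 2 - 5) (pA w) := by
  refine cop_of_eq (N := 125) hN
    (u := 2 * w ^ 3 + 5 * w ^ 2 + 15 * w)
    (v := -2 * w + 5) ?_
  rw [show (C (125 : F) : F[X]) = 125 from map_ofNat C 125]
  simp only [pA, pz, py]
  ring

lemma cop_Sz {w : F[X]} (hN : (12500000 : F) ≠ 0) : IsCoprime (w ^ 2 - 5) (pz w) := by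
  refine cop_of_eq (N := 12500000) hN
    (u := w ^ 11 + 45 * w ^ 10 - 50 * w ^ 9 - 1400 * w ^ 8 - 1250 * w ^ 7 - 10000 * w ^ 5
      - 83750 * w ^ 4 + 50000 * w ^ 3 - 368750 * w ^ 2 - 128125 * w - 2515625)
    (v := -w - 5) ?_
  rw [show (C (12500000 : F) : F[X]) = 12500000 from map_ofNat C 12500000]
  simp only [pA, pz, py]
  ring

lemma cop_yA {w : F[X]} (hN : (312500 : F) ≠ 0) : IsCoprime (py w) (pA w) := by
  refine cop_of_eq (N := 312500) hN
    (u := -w ^ 3 - 5 * w ^ 2 - 10 * w - 25)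
    (v := w ^ 9 + 65 * w ^ 7 + 25 * w ^ 6 - 175 * w ^ 5 + 1875 * w ^ 4 - 5250 * w ^ 3
      + 14375 * w ^ 2 - 14375 * w + 15625) ?_
  rw [show (C (312500 : F) : F[X]) = 312500 from map_ofNat C 312500]
  simp only [pA, pz, py]
  ring

lemma cop_yz {w : F[X]} (hN : (854296875000 : F) ≠ 0) : IsCoprime (py w) (pz w) := by
  refine cop_of_eq (N := 854296875000) hN
    (u := 1128 * w ^ 11 + 44516 * w ^ 10 - 312343 * w ^ 9 - 262585 * w ^ 8
      + 1191835 * w ^ 7 + 3399275 * w ^ 6 - 24748200 * w ^ 5 + 28936375 * w ^ 4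
      + 21320875 * w ^ 3 - 70848125 * w ^ 2 - 158239375 * w + 247862500)
    (v := -1128 * w ^ 9 + 604 * w ^ 8 - 78417 * w ^ 7 + 42365 * w ^ 6 - 243360 * w ^ 5
      + 157200 * w ^ 4 - 1231800 * w ^ 3 + 789125 * w ^ 2 - 9172125 * w + 5102500) ?_
  rw [show (C (854296875000 : F) : F[X]) = 854296875000 from map_ofNat C 854296875000]
  simp only [pA, pz, py]
  ring

lemma num_ne' {a b c : ℕ} (h2 : (2 : F) ≠ 0) (h3 : (3 : F) ≠ 0) (h5 : (5 : F) ≠ 0) :
    (2 : F) ^ a * 3 ^ b * 5 ^ c ≠ 0 :=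
  mul_ne_zero (mul_ne_zero (pow_ne_zero a h2) (pow_ne_zero b h3)) (pow_ne_zero c h5)

lemma cop_base (h2 : (2 : F) ≠ 0) (h3 : (3 : F) ≠ 0) (h5 : (5 : F) ≠ 0) (w : F[X]) :
    IsCoprime (pP w) (pQ w) := by
  have n1 : (25 : F) ≠ 0 := by
    have := num_ne' (a := 0) (b := 0) (c := 2) h2 h3 h5
    norm_num at this ⊢
    exact this
  have n2 : (15625 : F) ≠ 0 := by
    have := num_ne' (a := 0) (b := 0) (c := 6) h2 h3 h5
    norm_num at this ⊢
    exact this
  have n3 : (125 : F) ≠ 0 := by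
    have := num_ne' (a := 0) (b := 0) (c := 3) h2 h3 h5
    norm_num at this ⊢
    exact this
  have n4 : (12500000 : F) ≠ 0 := by
    have := num_ne' (a := 5) (b := 0) (c := 8) h2 h3 h5
    norm_num at this ⊢
    exact this
  have n5 : (312500 : F) ≠ 0 := by
    have := num_ne' (a := 2) (b := 0) (c := 7) h2 h3 h5
    norm_num at this ⊢
    exact this
  have n6 : (854296875000 : F) ≠ 0 := by
    have := num_ne' (a := 3) (b := 7) (c := 11) h2 h3 h5
    norm_num at this ⊢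
    exact this
  have n7 : (-250 : F) ≠ 0 := by
    have := num_ne' (a := 1) (b := 0) (c := 3) h2 h3 h5
    rw [neg_ne_zero]
    norm_num at this ⊢
    exact this
  have hu : IsUnit (-250 : F[X]) := by
    have : (-250 : F[X]) = C (-250 : F) := by
      rw [C_neg, show (C (250 : F) : F[X]) = 250 from map_ofNat C 250]
    rw [this]
    exact isUnit_C.2 (isUnit_iff_ne_zero.2 n7)
  rw [pP, isCoprime_mul_unit_left_left hu, pQ]
  refine IsCoprime.mul_left ?_ (IsCoprime.mul_left ?_ ?_)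
  · exact IsCoprime.mul_right (cop_wA n1) (cop_wz n2).pow_right
  · exact IsCoprime.pow_left (IsCoprime.mul_right (cop_SA n3) (cop_Sz n4).pow_right)
  · exact IsCoprime.pow_left (IsCoprime.mul_right (cop_yA n5) (cop_yz n6).pow_right)

/-- the initial solution -/
noncomputable def init2 (k m : F) : F[X] × F[X] × F[X] :=
  (pP (C k⁻¹ * X ^ 3), pQ (C k⁻¹ * X ^ 3),
    C m * X * (((C k⁻¹ * X ^ 3) ^ 2 - 5) * py (C k⁻¹ * X ^ 3) * pz (C k⁻¹ * X ^ 3)
      * pzm (C k⁻¹ * X ^ 3)))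

lemma init2_inv {b c k m : F} (h2 : (2 : F) ≠ 0) (h3 : (3 : F) ≠ 0) (h5 : (5 : F) ≠ 0)
    (hk0 : k ≠ 0) (hk : 3125 * k ^ 10 = c) (hm : b * m ^ 3 * k ^ 11 = 250) :
    Inv (C b * (X ^ 30 - C c)) 120 (init2 k m) := by
  have hm0 : m ≠ 0 := by
    rintro rfl
    have h250 : (2 : F) ^ 1 * 3 ^ 0 * 5 ^ 3 = 0 := by
      have : (2 : F) ^ 1 * 3 ^ 0 * 5 ^ 3 = 250 := by norm_num
      rw [this, ← hm]
      ring
    exact num_ne' h2 h3 h5 h250
  have ck : (C k : F[X]) * C k⁻¹ = 1 := by rw [← C_mul, mul_inv_cancel₀ hk0, C_1]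
  have cc : (C c : F[X]) = 3125 * C k ^ 10 := by
    rw [← hk, C_mul, C_pow, show (C (3125 : F) : F[X]) = 3125 from map_ofNat C 3125]
  have cm : (C b : F[X]) * C m ^ 3 * C k ^ 11 = 250 := by
    rw [← C_pow, ← C_pow, ← C_mul, ← C_mul, hm]
    exact map_ofNat C 250
  set w : F[X] := C k⁻¹ * X ^ 3 with hw
  have hX : (X : F[X]) ^ 3 = C k * w := by
    rw [hw, ← mul_assoc, ck, one_mul]
  have hX30 : (X : F[X]) ^ 30 = C k ^ 10 * w ^ 10 := by
    calc (X : F[X]) ^ 30 = (X ^ 3) ^ 10 := by ring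
      _ = _ := by rw [hX]; ring
  have dw : w.natDegree ≤ 3 := by
    rw [hw]
    compute_degree
  have cw : w.coeff 3 = k⁻¹ := by
    rw [hw]
    simp
  have dA : (pA w).natDegree ≤ 12 := by
    rw [pA, hw]
    compute_degree
    all_goals norm_num
  have dz : (pz w).natDegree ≤ 36 := by
    rw [pz, hw]
    compute_degree
    all_goals norm_num
  have dy : (py w).natDegree ≤ 30 := by
    rw [py, hw]
    compute_degree
    all_goals norm_num
  have dS : (w ^ 2 - 5).natDegree ≤ 6 := by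
    rw [hw]
    compute_degree
    all_goals norm_num
  have cA : (pA w).coeff 12 = k⁻¹ ^ 4 := by
    rw [pA, hw]
    compute_degree!
  have cz : (pz w).coeff 36 = k⁻¹ ^ 12 := by
    rw [pz, hw]
    compute_degree!
  have dz3 : (pz w ^ 3).natDegree ≤ 108 := natDegree_pow_le.trans (by omega)
  have cz3 : (pz w ^ 3).coeff 108 = (k⁻¹ ^ 12) ^ 3 := by
    have := coeff_pow_of_natDegree_le (m := 3) dz
    rw [← cz]
    exact this
  have cQ : (pQ w).coeff 120 = k⁻¹ ^ 4 * (k⁻¹ ^ 12) ^ 3 := by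
    rw [pQ, ← cA, ← cz3]
    exact coeff_mul_add_eq_of_natDegree_le dA dz3
  have cQ0 : (pQ w).coeff 120 ≠ 0 := by
    rw [cQ]
    have := inv_ne_zero hk0
    exact mul_ne_zero (pow_ne_zero 4 this) (pow_ne_zero 3 (pow_ne_zero 12 this))
  have dP : (pP w).natDegree ≤ 117 := by
    rw [pP]
    have e : (-250 : F[X]) = C (-250 : F) := by
      rw [C_neg, show (C (250 : F) : F[X]) = 250 from map_ofNat C 250]
    rw [e]
    refine (natDegree_C_mul_le _ _).trans ?_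
    have d1 : ((w ^ 2 - 5) ^ 4).natDegree ≤ 24 := natDegree_pow_le.trans (by omega)
    have d2 : (py w ^ 3).natDegree ≤ 90 := natDegree_pow_le.trans (by omega)
    exact natDegree_mul_le_of_le dw (natDegree_mul_le_of_le d1 d2)
  have hQ0 : pQ w ≠ 0 := by
    intro h
    rw [h] at cQ0
    exact cQ0 (coeff_zero _)
  have hz0 : pz w ≠ 0 := by
    intro h
    apply hQ0
    rw [pQ, h]
    ring
  have hS0 : pP w + pQ w ≠ 0 := by
    intro h
    have : (pP w + pQ w).coeff 120 = (pQ w).coeff 120 := by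
      rw [coeff_add, coeff_eq_zero_of_natDegree_lt (by omega : (pP w).natDegree < 120), zero_add]
    rw [h, coeff_zero] at this
    exact cQ0 this.symm
  have hzm0 : pzm w ≠ 0 := by
    intro h
    apply hS0
    rw [sum_eq, h]
    ring
  have hcop := cop_base h2 h3 h5 w
  have hP0 : pP w ≠ 0 := by
    intro h
    rw [h, isCoprime_zero_left] at hcop
    have := natDegree_eq_zero_of_isUnit hcop
    exact cQ0 (coeff_eq_zero_of_natDegree_lt (by omega))
  have hSS : w ^ 2 - 5 ≠ 0 := by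
    intro h
    apply hP0
    rw [pP, h]
    ring
  have hy0 : py w ≠ 0 := by
    intro h
    apply hP0
    rw [pP, h]
    ring
  refine ⟨?_, ?_, ?_, ?_, ?_, ?_⟩
  · simp only [init2]
    rw [← hw, base_eq]
    have e1 : (C b : F[X]) * (X ^ 30 - C c) * (C m * X) ^ 3 = 250 * (w * (w ^ 10 - 3125)) := by
      have e2 : (C b : F[X]) * (X ^ 30 - C c) * (C m * X) ^ 3
          = C b * (C k ^ 10 * w ^ 10 - 3125 * C k ^ 10) * (C m ^ 3 * (C k * w)) := by
        rw [← hX30, ← cc, ← hX]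
        ring
      rw [e2]
      linear_combination (w * (w ^ 10 - 3125)) * cm
    linear_combination (-((w ^ 2 - 5) * py w * pz w * pzm w) ^ 3) * e1
  · simp only [init2]
    exact hcop
  · simp only [init2]
    rw [← hw]
    exact mul_ne_zero (mul_ne_zero (C_ne_zero.2 hm0) X_ne_zero)
      (mul_ne_zero (mul_ne_zero (mul_ne_zero hSS hy0) hz0) hzm0)
  · simp only [init2]
    rw [← hw]
    omega
  · simp only [init2]
    rw [← hw, pQ]
    exact natDegree_mul_le_of_le dA dz3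
  · right
    simp only [init2]
    rw [← hw]
    exact cQ0

end Pool.Agent.N420.KS
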