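import Pool.Agent.N420.KS.Double

/-!
From polynomial solutions to points.
-/

open Polynomial

namespace Pool.Agent.N420.KS

section field

variable {K : Type*} [Field K]

/-- the cubic identity -/
lemma cube_id {ω p q : K} (hω : ω ^ 2 + ω + 1 = 0) :
    ((1 - ω) * p + (ω ^ 2 - ω) * q) ^ 3 - (-((1 - ω ^ 2) * p + (ω - ω ^ 2) * q)) ^ 3
      = -27 * (p * q * (p + q)) := by
  set a := (1 - ω) * p + (ω ^ 2 - ω) * q with ha
  set d := -((1 - ω ^ 2) * p + (ω - ω ^ 2) * q) with hd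
  have hω3 : ω ^ 3 = 1 := by linear_combination (ω - 1) * hω
  have e1 : a - d = 3 * p := by
    rw [ha, hd]
    linear_combination (-p) * hω
  have e2 : a - ω * d = 3 * ω ^ 2 * q := by
    rw [ha, hd]
    linear_combination (-p - q) * hω3 - q * hω
  have e3 : a - ω ^ 2 * d = -3 * ω * (p + q) := by
    rw [ha, hd]
    linear_combination (p + q) * hω - (p + q) * ω * hω3 + q * hω3
  calc a ^ 3 - d ^ 3 = (a - d) * (a - ω * d) * (a - ω ^ 2 * d)
        + (ω ^ 2 + ω + 1) * (a ^ 2 * d - ω * a * d ^ 2) + (ω ^ 3 - 1) * d ^ 3 := by ring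
    _ = _ := by
      rw [e1, e2, e3, hω, hω3]
      linear_combination (-27 * p * q * (p + q)) * hω3

lemma sect_eq {ω γ b c p q z t : K} (h3 : (3 : K) ≠ 0) (hω : ω ^ 2 + ω + 1 = 0)
    (hγ : γ ^ 3 = c) (hγ0 : γ ≠ 0) (hz : z ≠ 0) (ht : t ≠ 0)
    (h : -(p * q * (p + q)) = b * (t ^ 30 - c) * z ^ 3) :
    ((((1 - ω) * p + (ω ^ 2 - ω) * q) / (3 * z * t ^ 10)) ^ 3 - b) * t ^ 30
      = c * ((-((1 - ω ^ 2) * p + (ω - ω ^ 2) * q) / (3 * γ * z)) ^ 3 - b) := by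
  have key := cube_id (p := p) (q := q) hω
  set a := (1 - ω) * p + (ω ^ 2 - ω) * q with ha
  set d := -((1 - ω ^ 2) * p + (ω - ω ^ 2) * q) with hd
  have e1 : (a / (3 * z * t ^ 10)) ^ 3 * t ^ 30 = a ^ 3 / (27 * z ^ 3) := by
    have h27 : (27 : K) = 3 ^ 3 := by norm_num
    rw [h27]
    field_simp
  have e2 : c * (d / (3 * γ * z)) ^ 3 = d ^ 3 / (27 * z ^ 3) := by
    have h27 : (27 : K) = 3 ^ 3 := by norm_num
    rw [h27, ← hγ]
    field_simp
  have h27 : (27 : K) ≠ 0 := by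
    have h27 : (27 : K) = 3 ^ 3 := by norm_num
    rw [h27]
    exact pow_ne_zero 3 h3
  have e3 : a ^ 3 / (27 * z ^ 3) - d ^ 3 / (27 * z ^ 3) = b * (t ^ 30 - c) := by
    rw [← sub_div, div_eq_iff (mul_ne_zero h27 (pow_ne_zero 3 hz)), key]
    linear_combination 27 * h
  linear_combination e1 - e2 + e3

lemma sect_inj {ω γ p q z t p' q' z' : K} (h3 : (3 : K) ≠ 0) (hω : ω ^ 2 + ω + 1 = 0)
    (hγ0 : γ ≠ 0) (hz : z ≠ 0) (hz' : z' ≠ 0) (ht : t ≠ 0)
    (h1 : ((1 - ω) * p + (ω ^ 2 - ω) * q) / (3 * z * t ^ 10)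
      = ((1 - ω) * p' + (ω ^ 2 - ω) * q') / (3 * z' * t ^ 10))
    (h2 : -((1 - ω ^ 2) * p + (ω - ω ^ 2) * q) / (3 * γ * z)
      = -((1 - ω ^ 2) * p' + (ω - ω ^ 2) * q') / (3 * γ * z')) :
    p * q' = p' * q := by
  have hω3 : ω ^ 3 = 1 := by linear_combination (ω - 1) * hω
  have hω0 : ω ≠ 0 := by
    rintro rfl
    norm_num at hω
  have ht10 : t ^ 10 ≠ 0 := pow_ne_zero 10 ht
  have g1 : ((1 - ω) * p + (ω ^ 2 - ω) * q) * z' = ((1 - ω) * p' + (ω ^ 2 - ω) * q') * z := by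
    rw [div_eq_div_iff (mul_ne_zero (mul_ne_zero h3 hz) ht10)
      (mul_ne_zero (mul_ne_zero h3 hz') ht10)] at h1
    have : (3 * t ^ 10) * (((1 - ω) * p + (ω ^ 2 - ω) * q) * z')
        = (3 * t ^ 10) * (((1 - ω) * p' + (ω ^ 2 - ω) * q') * z) := by
      linear_combination h1
    exact mul_left_cancel₀ (mul_ne_zero h3 ht10) this
  have g2 : -((1 - ω ^ 2) * p + (ω - ω ^ 2) * q) * z'
      = -((1 - ω ^ 2) * p' + (ω - ω ^ 2) * q') * z := by
    rw [div_eq_div_iff (mul_ne_zero (mul_ne_zero h3 hγ0) hz)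
      (mul_ne_zero (mul_ne_zero h3 hγ0) hz')] at h2
    have : (3 * γ) * (-((1 - ω ^ 2) * p + (ω - ω ^ 2) * q) * z')
        = (3 * γ) * (-((1 - ω ^ 2) * p' + (ω - ω ^ 2) * q') * z) := by
      linear_combination h2
    exact mul_left_cancel₀ (mul_ne_zero h3 hγ0) this
  have f1 : p * z' = p' * z := by
    have : 3 * (p * z') = 3 * (p' * z) := by
      linear_combination g1 - g2 + (p * z' - p' * z) * hω
    exact mul_left_cancel₀ h3 this
  have f2 : q * z' = q' * z := by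
    have : (3 * ω ^ 2) * (q * z') = (3 * ω ^ 2) * (q' * z) := by
      linear_combination g1 - ω * g2 + ((p + q) * z' - (p' + q') * z) * hω3
        + (q * z' - q' * z) * hω
    exact mul_left_cancel₀ (mul_ne_zero h3 (pow_ne_zero 2 hω0)) this
  have : (z * z') * (p * q') = (z * z') * (p' * q) := by
    linear_combination (q' * z) * f1 - (p' * z) * f2
  exact mul_left_cancel₀ (mul_ne_zero hz hz') this

end field

end Pool.Agent.N420.KS
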