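import Pool.Agent.N420.KS.Init
import Pool.Agent.N420.KS.Init2
import Pool.Agent.N420.KS.Field2
import Pool.Agent.N420.KS.Pts
import Pool.Agent.N420.KS.Wei
import Pool.Agent.N420.KS.Defs

/-!
Positive rank of `K_{30}`.
-/

open Polynomial

namespace Pool.Agent.N420.KS

variable {F : Type} [Field F]

/-- the embedding -/
noncomputable abbrev ι (F : Type) [Field F] : F[X] →+* RatFunc F := algebraMap F[X] (RatFunc F)

lemma ι_inj : Function.Injective (ι F) := RatFunc.algebraMap_injective F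

lemma ι_ne {p : F[X]} (h : p ≠ 0) : ι F p ≠ 0 := by
  intro h0
  apply h
  apply ι_inj
  rw [h0, map_zero]

lemma num_ne {n : ℕ} (hn : 0 < n) (c : F) : (X ^ n - C c : F[X]) ≠ 0 :=
  X_pow_sub_C_ne_zero hn c

lemma D_ne {b c : F} (hb : b ≠ 0) : (C b * (X ^ 30 - C c) : F[X]) ≠ 0 :=
  mul_ne_zero (C_ne_zero.2 hb) (num_ne (by norm_num) c)

lemma eqn_K {b c : F} {N : ℕ} {T : F[X] × F[X] × F[X]} (h : Inv (C b * (X ^ 30 - C c)) N T) :
    -(ι F T.1 * ι F T.2.1 * (ι F T.1 + ι F T.2.1))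
      = RatFunc.C b * (RatFunc.X ^ 30 - RatFunc.C c) * ι F T.2.2 ^ 3 := by
  have := congrArg (ι F) h.eqn
  simp only [map_neg, map_mul, map_add, map_sub, map_pow, RatFunc.algebraMap_C,
    RatFunc.algebraMap_X] at this
  exact this

lemma RC_ne {a : F} (h : a ≠ 0) : (RatFunc.C a : RatFunc F) ≠ 0 := by
  rw [← RatFunc.algebraMap_C]
  exact ι_ne (C_ne_zero.2 h)

lemma RX_ne : (RatFunc.X : RatFunc F) ≠ 0 := RatFunc.X_ne_zero

lemma two_ne {h2 : (2 : F) ≠ 0} : (2 : RatFunc F) ≠ 0 := by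
  have := RC_ne h2
  rwa [map_ofNat] at this

lemma three_ne {h3 : (3 : F) ≠ 0} : (3 : RatFunc F) ≠ 0 := by
  have := RC_ne h3
  rwa [map_ofNat] at this

/-- the affine points are infinite in number -/
theorem infinite_points {b c ω γ : F} (h2 : (2 : F) ≠ 0) (h3 : (3 : F) ≠ 0) (hb : b ≠ 0)
    (hω : ω ^ 2 + ω + 1 = 0) (hγ : γ ^ 3 = c) (hγ0 : γ ≠ 0)
    {N : ℕ} {T : F[X] × F[X] × F[X]} (hN : 0 < N) (hT : Inv (C b * (X ^ 30 - C c)) N T) :
    (affinePoints F b c 5).Infinite := by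
  classical
  set w : RatFunc F := RatFunc.C ω with hw
  set g : RatFunc F := RatFunc.C γ with hg
  have hw1 : w ^ 2 + w + 1 = 0 := by
    rw [hw, ← map_pow, ← map_add, ← map_one RatFunc.C, ← map_add, hω, map_zero]
  have hg1 : g ^ 3 = RatFunc.C c := by rw [hg, ← map_pow, hγ]
  have h3' : (3 : RatFunc F) ≠ 0 := three_ne (h3 := h3)
  have hg0 : g ≠ 0 := RC_ne hγ0
  let f : ℕ → RatFunc F × RatFunc F := fun k =>
    (-((1 - w ^ 2) * ι F (orb T k).1 + (w - w ^ 2) * ι F (orb T k).2.1)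
        / (3 * g * ι F (orb T k).2.2),
      ((1 - w) * ι F (orb T k).1 + (w ^ 2 - w) * ι F (orb T k).2.1)
        / (3 * ι F (orb T k).2.2 * RatFunc.X ^ 10))
  refine Set.infinite_of_injective_forall_mem (f := f) ?_ ?_
  · intro k l hkl
    have hk := hT.orb h2 h3 hN k
    have hl := hT.orb h2 h3 hN l
    have e1 := congrArg Prod.snd hkl
    have e2 := congrArg Prod.fst hkl
    simp only [f] at e1 e2
    have := sect_inj h3' hw1 hg0 (ι_ne hk.z_ne) (ι_ne hl.z_ne) RX_ne e1 e2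
    rw [← map_mul, ← map_mul] at this
    have hpq := ι_inj this
    have hh := height_unique (D_ne hb) hk hl hpq
    have : 4 ^ k = 4 ^ l := Nat.eq_of_mul_eq_mul_right hN hh
    exact Nat.pow_right_injective (by norm_num : 2 ≤ 4) this
  · intro k
    have hk := hT.orb h2 h3 hN k
    have := sect_eq (b := RatFunc.C b) h3' hw1 hg1 hg0 (ι_ne hk.z_ne) RX_ne (eqn_K hk)
    simp only [affinePoints, Set.mem_setOf_eq, f]
    exact this

/-- the rank is positive -/
theorem rank_pos {b c : F} (h2 : (2 : F) ≠ 0) (h3 : (3 : F) ≠ 0) (hb : b ≠ 0)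
    {N : ℕ} {T : F[X] × F[X] × F[X]} (hN : 0 < N) (hT : Inv (C b * (X ^ 30 - C c)) N T)
    [DecidableEq (RatFunc F)] :
    0 < Module.rank ℤ (weierstrass F b c 5).Point := by
  have h2' : (2 : RatFunc F) ≠ 0 := two_ne (h2 := h2)
  have h3' : (3 : RatFunc F) ≠ 0 := three_ne (h3 := h3)
  have hb' : (RatFunc.C b : RatFunc F) ≠ 0 := RC_ne hb
  set e : RatFunc F := RatFunc.X ^ 30 - RatFunc.C c with he
  have he0 : e ≠ 0 := by
    have : e = ι F (X ^ 30 - C c) := by
      rw [he]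
      simp only [map_sub, map_pow, RatFunc.algebraMap_C, RatFunc.algebraMap_X]
    rw [this]
    exact ι_ne (num_ne (by norm_num) c)
  have hW : weierstrass F b c 5 = wei (RatFunc.C b) e := rfl
  rw [hW]
  have hns : ∀ k, (wei (RatFunc.C b) e).Nonsingular
      (wx (RatFunc.C b) e (ι F (orb T k).1) (ι F (orb T k).2.2))
      (wy (RatFunc.C b) e (ι F (orb T k).1) (ι F (orb T k).2.1)) := by
    intro k
    have hk := hT.orb h2 h3 hN k
    exact wei_nonsing h2' h3' hb' he0 (ι_ne (pq_ne (D_ne hb) hk).1) (ι_ne hk.z_ne) (eqn_K hk)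
  let pt : ℕ → (wei (RatFunc.C b) e).Point := fun k => .some _ _ (hns k)
  have hstep : ∀ k, pt k + pt k = -pt (k + 1) := by
    intro k
    have hk := hT.orb h2 h3 hN k
    have hA : ι F (orb T k).1 + 2 * ι F (orb T k).2.1 ≠ 0 := by
      have := ι_ne (factors_ne hk (by positivity)).1
      rwa [map_add, map_mul, map_ofNat] at this
    have key : ∀ P Q Z : RatFunc F,
        P = ι F (orb T k).1 * (ι F (orb T k).1 + 2 * ι F (orb T k).2.1) ^ 3 →
        Q = -(ι F (orb T k).2.1 * (2 * ι F (orb T k).1 + ι F (orb T k).2.1) ^ 3) →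
        Z = -(ι F (orb T k).2.2 * ((ι F (orb T k).1 + 2 * ι F (orb T k).2.1)
          * (2 * ι F (orb T k).1 + ι F (orb T k).2.1) * (ι F (orb T k).1 - ι F (orb T k).2.1))) →
        ∀ h1' : (wei (RatFunc.C b) e).Nonsingular (wx (RatFunc.C b) e P Z)
          (wy (RatFunc.C b) e P Q),
        pt k + pt k = -WeierstrassCurve.Affine.Point.some _ _ h1' := by
      intro P Q Z hP hQ hZ h1'
      subst hP hQ hZ
      exact wei_dbl h2' hb' he0 (ι_ne (pq_ne (D_ne hb) hk).1) hA (eqn_K hk) (hns k) h1'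
    have eP : ι F (orb T (k + 1)).1
        = ι F (orb T k).1 * (ι F (orb T k).1 + 2 * ι F (orb T k).2.1) ^ 3 := by
      rw [orb_succ]
      simp only [dbl, map_mul, map_pow, map_add, map_ofNat]
    have eQ : ι F (orb T (k + 1)).2.1
        = -(ι F (orb T k).2.1 * (2 * ι F (orb T k).1 + ι F (orb T k).2.1) ^ 3) := by
      rw [orb_succ]
      simp only [dbl, map_mul, map_pow, map_add, map_neg, map_ofNat]
    have eZ : ι F (orb T (k + 1)).2.2
        = -(ι F (orb T k).2.2 * ((ι F (orb T k).1 + 2 * ι F (orb T k).2.1)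
        * (2 * ι F (orb T k).1 + ι F (orb T k).2.1) * (ι F (orb T k).1 - ι F (orb T k).2.1))) := by
      rw [orb_succ]
      simp only [dbl, map_mul, map_add, map_sub, map_neg, map_ofNat]
    exact key _ _ _ eP eQ eZ (hns (k + 1))
  have hinj : Function.Injective pt := by
    intro k l hkl
    have hk := hT.orb h2 h3 hN k
    have hl := hT.orb h2 h3 hN l
    have hkl' := WeierstrassCurve.Affine.Point.some.injEq .. |>.mp hkl
    have e2 := hkl'.2
    have pk := ι_ne (pq_ne (D_ne hb) hk).1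
    have pl := ι_ne (pq_ne (D_ne hb) hl).1
    rw [wy, wy, div_eq_div_iff (mul_ne_zero (mul_ne_zero h2' (pow_ne_zero 2 hb')) pk)
      (mul_ne_zero (mul_ne_zero h2' (pow_ne_zero 2 hb')) pl)] at e2
    have e3 : (e * 4 * RatFunc.C b ^ 2) * (ι F (orb T k).1 * ι F (orb T l).2.1)
        = (e * 4 * RatFunc.C b ^ 2) * (ι F (orb T l).1 * ι F (orb T k).2.1) := by
      linear_combination -e2
    have h4 : (4 : RatFunc F) ≠ 0 := by
      have : (4 : RatFunc F) = 2 * 2 := by norm_num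
      rw [this]
      exact mul_ne_zero h2' h2'
    have e4 := mul_left_cancel₀ (mul_ne_zero (mul_ne_zero he0 h4) (pow_ne_zero 2 hb')) e3
    rw [← map_mul, ← map_mul] at e4
    have hpq := ι_inj e4
    have hh := height_unique (D_ne hb) hk hl hpq
    have : 4 ^ k = 4 ^ l := Nat.eq_of_mul_eq_mul_right hN hh
    exact Nat.pow_right_injective (by norm_num : 2 ≤ 4) this
  have hmem : ∀ k, pt k ∈ AddSubgroup.zmultiples (pt 0) := by
    intro k
    induction k with
    | zero => exact AddSubgroup.mem_zmultiples _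
    | succ k ih =>
      have : pt (k + 1) = -(pt k + pt k) := by rw [hstep k, neg_neg]
      rw [this]
      exact AddSubgroup.neg_mem _ (AddSubgroup.add_mem _ ih ih)
  have hinf : ((AddSubgroup.zmultiples (pt 0) : AddSubgroup _) : Set (wei (RatFunc.C b) e).Point).Infinite :=
    Set.infinite_of_injective_forall_mem hinj hmem
  rw [pos_iff_ne_zero]
  intro h0
  rw [rank_eq_zero_iff] at h0
  obtain ⟨a, ha, hx⟩ := h0 (pt 0)
  apply hinf
  rw [finite_zmultiples]
  exact isOfFinAddOrder_iff_zsmul_eq_zero.2 ⟨a, ha, hx⟩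

lemma five_eq_zero [Finite F] (hq : Nat.card F % 5 = 0) : (5 : F) = 0 := by
  haveI := Fintype.ofFinite F
  haveI : Fact (ringChar F).Prime := ⟨CharP.char_is_prime F (ringChar F)⟩
  obtain ⟨n, hp, hn⟩ := FiniteField.card F (ringChar F)
  have h5 : 5 ∣ (ringChar F) ^ (n : ℕ) := by
    rw [← hn, ← Nat.card_eq_fintype_card]
    omega
  have h5' : 5 ∣ ringChar F := (by norm_num : Nat.Prime 5).dvd_of_dvd_pow h5
  have h5'' : 5 = ringChar F := (Nat.prime_dvd_prime_iff_eq (by norm_num) hp).1 h5'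
  have : ((5 : ℕ) : F) = 0 := (ringChar.spec F 5).2 (by rw [← h5''])
  exact_mod_cast this

/-- The main theorem. -/
theorem main {b c : F} [Finite F] (h : Admissible F b c) (hq : Nat.card F % 5 ≠ 1)
    (hβ : ∃ β : F, b = 10 * β ^ 3) [DecidableEq (RatFunc F)] :
    0 < Module.rank ℤ (weierstrass F b c 5).Point ∧ (affinePoints F b c 5).Infinite := by
  obtain ⟨β, hβ⟩ := hβ
  obtain ⟨γ, hγ⟩ := h.c_cube
  have hb0 := h.b_ne
  have h10 : (10 : F) ≠ 0 := by
    intro h
    apply hb0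
    rw [hβ, h, zero_mul]
  have h2 : (2 : F) ≠ 0 := by
    intro h
    apply h10
    linear_combination 5 * h
  have h5 : (5 : F) ≠ 0 := by
    intro h
    apply h10
    linear_combination 2 * h
  have h3 : (3 : F) ≠ 0 := by
    intro h3
    have : ((3 : ℕ) : F) = 0 := by exact_mod_cast h3
    have := (ringChar.spec F 3).1 this
    have := Nat.le_of_dvd (by norm_num) this
    have := h.char_gt
    omega
  have hγ0 : γ ≠ 0 := by
    rintro rfl
    apply h.c_ne
    rw [← hγ]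
    ring
  obtain ⟨ω, hω⟩ := exists_omega b hb0 h.b_noncube
  have hq0 : Nat.card F % 5 ≠ 0 := fun h0 => h5 (five_eq_zero h0)
  have hcase : Nat.card F % 5 = 4 ∨ (Nat.card F % 5 = 2 ∨ Nat.card F % 5 = 3) := by omega
  rcases hcase with hq | hq
  · obtain ⟨s, ν, θ, μ, hs, hν, hθ, hμ, hν0, hθ0⟩ :=
      exists_params h.char_gt hq hβ hb0 h.c_ne hγ h.c_nonsq
    have hT := init_inv h2 h5 hs hν hθ hμ hν0 hθ0
    exact ⟨rank_pos h2 h3 hb0 (by norm_num) hT,
      infinite_points h2 h3 hb0 hω hγ hγ0 (by norm_num) hT⟩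
  · obtain ⟨k, m, hk0, hk, hm⟩ :=
      exists_params2 h.char_gt hq hβ hb0 h.c_ne hγ h.c_nonsq
    have hT := init2_inv h2 h3 h5 hk0 hk hm
    exact ⟨rank_pos h2 h3 hb0 (by norm_num) hT,
      infinite_points h2 h3 hb0 hω hγ hγ0 (by norm_num) hT⟩

end Pool.Agent.N420.KS
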