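import Mathlib

/-!
Field facts for `MP_3da457_ag`.
-/

namespace Pool.Agent.N420.KS

variable {F : Type*} [Field F] [Finite F]

lemma exists_root_of_coprime {n : ℕ} (hn : (Nat.card Fˣ).Coprime n) (x : F) (hx : x ≠ 0) :
    ∃ y : F, y ≠ 0 ∧ y ^ n = x := by
  obtain ⟨y, hy⟩ := (powCoprime hn).surjective (Units.mk0 x hx)
  refine ⟨y, y.ne_zero, ?_⟩
  have := congrArg Units.val hy
  simpa using this

lemma exists_omega (b : F) (hb : b ≠ 0) (h : ¬ ∃ x : F, x ^ 3 = b) :
    ∃ ω : F, ω ^ 2 + ω + 1 = 0 := by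
  classical
  have h3 : ¬ (Nat.card Fˣ).Coprime 3 := by
    intro hn
    obtain ⟨y, -, hy⟩ := exists_root_of_coprime hn b hb
    exact h ⟨y, hy⟩
  have h3' : 3 ∣ Nat.card Fˣ := by
    by_contra hc
    exact h3 ((Nat.Prime.coprime_iff_not_dvd Nat.prime_three).2 hc).symm
  haveI : Fact (Nat.Prime 3) := ⟨Nat.prime_three⟩
  obtain ⟨u, hu⟩ := exists_prime_orderOf_dvd_card' 3 h3'
  refine ⟨u, ?_⟩
  have h1 : (u : F) ^ 3 = 1 := by
    have := pow_orderOf_eq_one u
    rw [hu] at this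
    have := congrArg Units.val this
    simpa using this
  have h2 : (u : F) ≠ 1 := by
    intro h
    have : u = 1 := Units.ext h
    rw [this, orderOf_one] at hu
    omega
  have h4 : ((u : F) - 1) * ((u : F) ^ 2 + u + 1) = 0 := by
    linear_combination h1
  rcases mul_eq_zero.1 h4 with h | h
  · exact absurd (sub_eq_zero.1 h) h2
  · exact h

instance fact5 : Fact (Nat.Prime 5) := ⟨by norm_num⟩

lemma exists_sqrt5 (hchar : 3 < ringChar F) (hq : Nat.card F % 5 = 4) : ∃ s : F, s ^ 2 = 5 := by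
  classical
  haveI := Fintype.ofFinite F
  have h := (FiniteField.isSquare_odd_prime_iff (F := F) (by omega) (p := 5) (by norm_num)).2 ?_
  · obtain ⟨s, hs⟩ := h
    refine ⟨s, ?_⟩
    rw [sq, ← hs]
    norm_num
  · rw [Nat.card_eq_fintype_card] at hq
    have hc : ((Fintype.card F : ℕ) : ZMod 5) = 4 := by
      have : ((Fintype.card F % 5 : ℕ) : ZMod 5) = Fintype.card F := ZMod.natCast_mod _ _
      rw [← this, hq]
      rfl
    rw [hc]
    have h4 : ∀ x : ZMod 4, (ZMod.χ₄ x = 0 ∨ ZMod.χ₄ x = 1 ∨ ZMod.χ₄ x = -1) := by decide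
    rcases h4 (Fintype.card F : ZMod 4) with h | h | h <;> rw [h] <;> decide

lemma isSquare_mul_of_not {x y : F} (hx : ¬ IsSquare x) (hy : ¬ IsSquare y) :
    IsSquare (x * y) := by
  classical
  haveI := Fintype.ofFinite F
  have h2 : ringChar F ≠ 2 := by
    intro h
    exact hx (FiniteField.isSquare_of_char_two h x)
  have hx0 : x ≠ 0 := by rintro rfl; exact hx (IsSquare.zero)
  have hy0 : y ≠ 0 := by rintro rfl; exact hy (IsSquare.zero)
  have h1 := (quadraticChar_neg_one_iff_not_isSquare (F := F) (a := x)).2 hx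
  have h3 := (quadraticChar_neg_one_iff_not_isSquare (F := F) (a := y)).2 hy
  refine (quadraticChar_one_iff_isSquare (mul_ne_zero hx0 hy0)).1 ?_
  rw [map_mul, h1, h3]
  norm_num

lemma card_units_coprime_five (hq : Nat.card F % 5 = 4) : (Nat.card Fˣ).Coprime 5 := by
  classical
  haveI := Fintype.ofFinite F
  have h1 : Nat.card Fˣ = Nat.card F - 1 := by
    rw [Nat.card_units]
  have h5 : ¬ 5 ∣ Nat.card Fˣ := by
    rw [h1]
    omega
  exact ((Nat.Prime.coprime_iff_not_dvd (by norm_num : Nat.Prime 5)).2 h5).symm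

/-- no primitive fifth root of unity -/
lemma no_zeta (hq : Nat.card F % 5 = 4) (h5 : (5 : F) ≠ 0) (z : F)
    (hz : z ^ 4 + z ^ 3 + z ^ 2 + z + 1 = 0) : False := by
  have hz5 : z ^ 5 = 1 := by linear_combination (z - 1) * hz
  have hz0 : z ≠ 0 := by
    rintro rfl
    norm_num at hz
  have hz1 : z ≠ 1 := by
    rintro rfl
    apply h5
    norm_num at hz
    exact hz
  have hinj := (powCoprime (card_units_coprime_five hq)).injective
  have : Units.mk0 z hz0 = 1 := by
    apply hinj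
    apply Units.ext
    simp [hz5]
  apply hz1
  have := congrArg Units.val this
  simpa using this

/-- The parameters of the section. -/
theorem exists_params (hchar : 3 < ringChar F) (hq : Nat.card F % 5 = 4) {b c β γ : F}
    (hb : b = 10 * β ^ 3) (hb0 : b ≠ 0) (hc0 : c ≠ 0) (hγ : γ ^ 3 = c) (hcns : ¬ IsSquare c) :
    ∃ s ν θ μ : F, s ^ 2 = 5 ∧ ν ^ 5 = -c ∧ θ ^ 2 = (5 + 2 * s) * ν ∧ b * μ ^ 3 = -2 * θ ∧
      ν ≠ 0 ∧ θ ≠ 0 := by
  have h10 : (10 : F) ≠ 0 := by
    intro h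
    apply hb0
    rw [hb, h, zero_mul]
  have h2 : (2 : F) ≠ 0 := by
    intro h
    apply h10
    linear_combination 5 * h
  have h5 : (5 : F) ≠ 0 := by
    intro h
    apply h10
    linear_combination 2 * h
  have hβ : β ≠ 0 := by
    rintro rfl
    apply hb0
    rw [hb]
    ring
  have hγ0 : γ ≠ 0 := by
    rintro rfl
    apply hc0
    rw [← hγ]
    ring
  obtain ⟨s, hs⟩ := exists_sqrt5 hchar hq
  have hs0 : s ≠ 0 := by
    rintro rfl
    apply h5
    rw [← hs]
    ring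
  obtain ⟨ν, hν0, hν⟩ := exists_root_of_coprime (card_units_coprime_five hq) (-c)
    (neg_ne_zero.2 hc0)
  -- `-ν` is not a square
  have hνns : ¬ IsSquare (-ν) := by
    rintro ⟨r, hr⟩
    apply hcns
    refine ⟨r ^ 5, ?_⟩
    have : (-ν) ^ 5 = c := by
      rw [neg_pow, hν]
      ring
    rw [← this, hr]
    ring
  have h52 : (5 : F) + 2 * s ≠ 0 := by
    intro h
    apply h5
    linear_combination (5 - 2 * s) * h + 4 * hs
  have h10s : (10 : F) + 2 * s ≠ 0 := by
    intro h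
    -- (10+2s)(10-2s) = 80
    have h80 : (80 : F) = 0 := by linear_combination (10 - 2 * s) * h + 4 * hs
    have : (2 : F) ^ 3 * 10 = 0 := by
      rw [← h80]
      norm_num
    rcases mul_eq_zero.1 this with h | h
    · exact h2 (pow_eq_zero_iff (by norm_num) |>.1 h)
    · exact h10 h
  have h52ns : ¬ IsSquare (-(5 + 2 * s)) := by
    rintro ⟨r, hr⟩
    -- then `-(10+2s)` is a square
    -- -(10+2s) = (r (10+2s) / (5+3s))^2, with (5+2s)(10+2s) = (5+3s)^2
    have hkey : (5 + 2 * s) * (10 + 2 * s) = (5 + 3 * s) ^ 2 := by linear_combination -5 * hs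
    have h53 : (5 : F) + 3 * s ≠ 0 := by
      intro h
      rw [h] at hkey
      have : (5 + 2 * s) * (10 + 2 * s) = 0 := by rw [hkey]; ring
      rcases mul_eq_zero.1 this with h | h
      · exact h52 h
      · exact h10s h
    set d : F := r * (10 + 2 * s) / (5 + 3 * s) with hd
    have hd2 : d ^ 2 = -(10 + 2 * s) := by
      rw [hd, div_pow, div_eq_iff (pow_ne_zero 2 h53)]
      have : r ^ 2 = -(5 + 2 * s) := by rw [sq, ← hr]
      rw [mul_pow, this, ← hkey]
      ring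
    -- ζ
    set z : F := ((s - 1) / 2 + d / 2) / 2 with hz
    have hquad : z ^ 2 - (s - 1) / 2 * z + 1 = 0 := by
      rw [hz]
      field_simp
      linear_combination hd2 + hs * (-1)
    have hquart : z ^ 4 + z ^ 3 + z ^ 2 + z + 1 = 0 := by
      -- (z²-(s-1)/2 z+1)(z²+(s+1)/2 z+1) = z⁴+z³+z²+z+1 
      have : z ^ 4 + z ^ 3 + z ^ 2 + z + 1
          = (z ^ 2 - (s - 1) / 2 * z + 1) * (z ^ 2 + (s + 1) / 2 * z + 1) := by
        field_simp
        linear_combination (z ^ 2) * hs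
      rw [this, hquad, zero_mul]
    exact no_zeta hq h5 z hquart
  obtain ⟨θ, hθ⟩ := isSquare_mul_of_not h52ns hνns
  have hθ2 : θ ^ 2 = (5 + 2 * s) * ν := by
    rw [sq, ← hθ]
    ring
  have hθ0 : θ ≠ 0 := by
    rintro rfl
    have : (5 + 2 * s) * ν = 0 := by rw [← hθ2]; ring
    rcases mul_eq_zero.1 this with h | h
    · exact h52 h
    · exact hν0 h
  -- φ = (1+s)/2
  set φ : F := (1 + s) / 2 with hφ
  have hφ3 : φ ^ 3 = 2 + s := by
    rw [hφ]
    field_simp
    linear_combination (3 + s) * hs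
  have hφ0 : φ ≠ 0 := by
    intro h
    rw [h] at hφ3
    have h2s : (2 : F) + s = 0 := by rw [← hφ3]; ring
    have : (1 : F) = 0 := by linear_combination (s - 2) * h2s - hs
    exact one_ne_zero this
  refine ⟨s, ν, θ, θ * γ / (φ * s * ν ^ 2 * β), hs, hν, hθ2, ?_, hν0, hθ0⟩
  have hden : (φ * s * ν ^ 2 * β) ^ 3 = (2 + s) * (5 * s) * ν ^ 6 * β ^ 3 := by
    have hs3 : s ^ 3 = 5 * s := by linear_combination s * hs
    calc (φ * s * ν ^ 2 * β) ^ 3 = φ ^ 3 * s ^ 3 * ν ^ 6 * β ^ 3 := by ring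
      _ = _ := by rw [hφ3, hs3]
  have h2s : (2 : F) + s ≠ 0 := by
    rw [← hφ3]
    exact pow_ne_zero 3 hφ0
  rw [div_pow, hden, hb, mul_div_assoc', div_eq_iff]
  · have hc : γ ^ 3 = -ν ^ 5 := by
      rw [hγ, hν]
      ring
    have hθ3 : θ ^ 3 = θ * ((5 + 2 * s) * ν) := by rw [← hθ2]; ring
    rw [mul_pow, hc, hθ3]
    linear_combination (10 * β ^ 3 * θ * ν ^ 6) * hs
  · have : (5 : F) * s ≠ 0 := mul_ne_zero h5 hs0
    exact mul_ne_zero (mul_ne_zero (mul_ne_zero h2s this) (pow_ne_zero 6 hν0))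
      (pow_ne_zero 3 hβ)

end Pool.Agent.N420.KS
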