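import Pool.Agent.N420.KS.Field
import Pool.Agent.N420.KS.Double

/-!
The first solution.
-/

open Polynomial

namespace Pool.Agent.N420.KS

variable {F : Type*} [Field F]

/-- the initial solution -/
noncomputable def init (s ν θ μ : F) : F[X] × F[X] × F[X] :=
  (C (2 * θ) * (X ^ 3 * (X ^ 6 + C ν)),
    X ^ 12 - C θ * X ^ 9 + C ((2 + s) * ν) * X ^ 6 - C (θ * ν) * X ^ 3 + C (ν ^ 2),
    C μ * X)

lemma init_inv {b c s ν θ μ : F} (h2 : (2 : F) ≠ 0) (h5 : (5 : F) ≠ 0) (hs : s ^ 2 = 5)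
    (hν : ν ^ 5 = -c)
    (hθ : θ ^ 2 = (5 + 2 * s) * ν) (hμ : b * μ ^ 3 = -2 * θ) (hν0 : ν ≠ 0) (hθ0 : θ ≠ 0) :
    Inv (C b * (X ^ 30 - C c)) 12 (init s ν θ μ) := by
  have hs0 : s ≠ 0 := by
    rintro rfl
    apply h5
    rw [← hs]
    ring
  have cs : (C s : F[X]) ^ 2 = 5 := by
    rw [← C_pow, hs]
    exact map_ofNat C 5
  have cν : (C ν : F[X]) ^ 5 = -C c := by rw [← C_pow, hν, C_neg]
  have cθ : (C θ : F[X]) ^ 2 = (5 + 2 * C s) * C ν := by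
    rw [← C_pow, hθ, C_mul, C_add, C_mul]
    rw [show (C (5 : F) : F[X]) = 5 from map_ofNat C 5, C2]
  have cμ : (C b : F[X]) * C μ ^ 3 = -2 * C θ := by
    rw [← C_pow, ← C_mul, hμ, C_mul, C_neg, C2]
  have hμ0 : μ ≠ 0 := by
    rintro rfl
    have : -2 * θ = 0 := by rw [← hμ]; ring
    rcases mul_eq_zero.1 this with h | h
    · exact h2 (neg_eq_zero.1 h)
    · exact hθ0 h
  refine ⟨?_, ?_, ?_, ?_, ?_, ?_⟩
  · simp only [init]
    rw [C_mul, C_mul, C_mul, C_add, C_pow, C2]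
    linear_combination (2 * C θ * X ^ 9 * (X ^ 6 + C ν) ^ 3) * cθ
      - (2 * C θ * X ^ 15 * (X ^ 6 + C ν) * C ν ^ 2) * cs
      - (2 * C θ * X ^ 3) * cν - (X ^ 3 * (X ^ 30 - C c)) * cμ
  · simp only [init]
    have hu : IsUnit (C (2 * θ) : F[X]) :=
      isUnit_C.2 (isUnit_iff_ne_zero.2 (mul_ne_zero h2 hθ0))
    rw [isCoprime_mul_unit_left_left hu]
    refine IsCoprime.mul_left ?_ ?_
    · refine IsCoprime.pow_left ?_
      have hn : (C (ν ^ 2)⁻¹ : F[X]) * C (ν ^ 2) = 1 := by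
        rw [← C_mul, inv_mul_cancel₀ (pow_ne_zero 2 hν0), C_1]
      refine ⟨-C (ν ^ 2)⁻¹ * (X ^ 11 - C θ * X ^ 8 + C ((2 + s) * ν) * X ^ 5
        - C (θ * ν) * X ^ 2), C (ν ^ 2)⁻¹, ?_⟩
      linear_combination hn
    · have hn : (C (s * ν ^ 2)⁻¹ : F[X]) * C (s * ν ^ 2) = 1 := by
        rw [← C_mul, inv_mul_cancel₀ (mul_ne_zero hs0 (pow_ne_zero 2 hν0)), C_1]
      refine ⟨C (s * ν ^ 2)⁻¹ * (X ^ 6 - C θ * X ^ 3 + C ((1 + s) * ν)),
        -C (s * ν ^ 2)⁻¹, ?_⟩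
      have e : (X ^ 6 - C θ * X ^ 3 + C ((1 + s) * ν)) * (X ^ 6 + C ν)
          - (X ^ 12 - C θ * X ^ 9 + C ((2 + s) * ν) * X ^ 6 - C (θ * ν) * X ^ 3 + C (ν ^ 2))
          = C (s * ν ^ 2) := by
        simp only [C_mul, C_add, C_pow, C_1, C2]
        ring
      linear_combination hn + C (s * ν ^ 2)⁻¹ * e
  · simp only [init]
    exact mul_ne_zero (C_ne_zero.2 hμ0) X_ne_zero
  · simp only [init]
    compute_degree
    norm_num
  · simp only [init]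
    compute_degree
  · right
    simp only [init]
    have : (X ^ 12 - C θ * X ^ 9 + C ((2 + s) * ν) * X ^ 6 - C (θ * ν) * X ^ 3
        + C (ν ^ 2) : F[X]).coeff 12 = 1 := by
      simp only [coeff_add, coeff_sub, coeff_C_mul, coeff_X_pow, coeff_C]
      norm_num
    rw [this]
    exact one_ne_zero

end Pool.Agent.N420.KS
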